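import Pool.Agent.Helper40.Riesz.Coarse

/-!
# Riesz energy on spheres: module HS_UPPER (Hardin-Saff, upper bound)
-/

set_option autoImplicit false
open MeasureTheory Set Filter Topology
open scoped ENNReal NNReal Pointwise

namespace Helper23.Riesz

namespace UpperAux

open CoarseAux

variable {d : ℕ}

lemma en_mono {s : ℝ} (hs : s ≠ 0) {X Y : Finset (S d)} (h : X ⊆ Y) : en s X ≤ en s Y := by
  rw [en_eq hs, en_eq hs]
  calc ∑ x ∈ X, ∑ y ∈ X, K s x y ≤ ∑ x ∈ X, ∑ y ∈ Y, K s x y :=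
        Finset.sum_le_sum fun x _ => Finset.sum_le_sum_of_subset_of_nonneg h
          fun y _ _ => K_nonneg s x y
    _ ≤ ∑ x ∈ Y, ∑ y ∈ Y, K s x y :=
        Finset.sum_le_sum_of_subset_of_nonneg h
          fun x _ _ => Finset.sum_nonneg fun y _ => K_nonneg s x y

lemma Emin_le_of_card {s : ℝ} (hs : s ≠ 0) {N : ℕ} (Y : Finset (S d)) (h : N ≤ Y.card) :
    Emin s d N ≤ en s Y := by
  obtain ⟨X, hX, hc⟩ := Finset.exists_subset_card_eq h
  rw [← hc]
  exact (Emin_le s X).trans (en_mono hs hX)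

lemma K_le {s : ℝ} (hs : 0 < s) {x y : S d} {r : ℝ} (hr : 0 < r) (h : r ≤ dist x y) :
    K s x y ≤ r ^ (-s) := by
  unfold K
  exact Real.rpow_le_rpow_of_nonpos hr h (by linarith)

/-- energy of a union of well separated pieces -/
lemma en_biUnion_le {s : ℝ} (hs : s ≠ 0) {J : ℕ} [DecidableEq (S d)] (Y : Fin J → Finset (S d)) {B : ℝ}
    (hdis : ∀ i j, i ≠ j → Disjoint (Y i) (Y j))
    (hB : ∀ i j, i ≠ j → ∀ x ∈ Y i, ∀ y ∈ Y j, K s x y ≤ B) (hB0 : 0 ≤ B) :
    en s (Finset.univ.biUnion Y) ≤ ∑ j, en s (Y j) + B * (∑ j, ((Y j).card : ℝ)) ^ 2 := by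
  have hd' : ((Finset.univ : Finset (Fin J)) : Set (Fin J)).PairwiseDisjoint Y :=
    fun i _ j _ hij => hdis i j hij
  rw [en_eq hs, Finset.sum_biUnion hd']
  have h1 : ∀ i : Fin J, ∑ x ∈ Y i, ∑ y ∈ Finset.univ.biUnion Y, K s x y ≤
      en s (Y i) + B * (((Y i).card : ℝ) * ∑ j, ((Y j).card : ℝ)) := by
    intro i
    have h2 : ∑ x ∈ Y i, ∑ y ∈ Finset.univ.biUnion Y, K s x y =
        ∑ j, ∑ x ∈ Y i, ∑ y ∈ Y j, K s x y := by
      rw [Finset.sum_comm (s := Finset.univ) (t := Y i)]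
      exact Finset.sum_congr rfl fun x _ => Finset.sum_biUnion hd'
    rw [h2]
    have h3 : ∀ j : Fin J, ∑ x ∈ Y i, ∑ y ∈ Y j, K s x y ≤
        (if j = i then en s (Y i) else 0) + B * (((Y i).card : ℝ) * ((Y j).card : ℝ)) := by
      intro j
      by_cases hj : j = i
      · subst hj
        rw [if_pos rfl, en_eq hs]
        have : 0 ≤ B * (((Y j).card : ℝ) * ((Y j).card : ℝ)) := by positivity
        linarith
      · rw [if_neg hj, zero_add]
        calc ∑ x ∈ Y i, ∑ y ∈ Y j, K s x y ≤ ∑ x ∈ Y i, ∑ y ∈ Y j, B :=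
              Finset.sum_le_sum fun x hx => Finset.sum_le_sum fun y hy =>
                hB i j (fun h => hj h.symm) x hx y hy
          _ = B * (((Y i).card : ℝ) * ((Y j).card : ℝ)) := by
              simp only [Finset.sum_const, nsmul_eq_mul]; ring
    refine (Finset.sum_le_sum fun j _ => h3 j).trans ?_
    rw [Finset.sum_add_distrib, ← Finset.mul_sum, ← Finset.mul_sum, Finset.sum_ite_eq' Finset.univ i,
      if_pos (Finset.mem_univ i)]
  calc ∑ i, ∑ x ∈ Y i, ∑ y ∈ Finset.univ.biUnion Y, K s x y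
      ≤ ∑ i, (en s (Y i) + B * (((Y i).card : ℝ) * ∑ j, ((Y j).card : ℝ))) :=
        Finset.sum_le_sum fun i _ => h1 i
    _ = _ := by
        rw [Finset.sum_add_distrib, ← Finset.mul_sum, ← Finset.sum_mul, sq]

/-- energy of an expanded image -/
lemma en_image_le {s : ℝ} (hs : 0 < s) [DecidableEq (S d)] (X : Finset (R d)) (f : R d → S d)
    {ρ : ℝ} (hρ : 0 < ρ) (hf : ∀ x ∈ X, ∀ y ∈ X, ρ * dist x y ≤ dist (f x) (f y)) :
    (X.image f).card = X.card ∧ en s (X.image f) ≤ ρ ^ (-s) * enR s X := by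
  have hinj : Set.InjOn f (X : Set (R d)) := by
    intro x hx y hy hxy
    have h := hf x hx y hy
    rw [hxy, dist_self] at h
    have h2 : dist x y ≤ 0 := by
      by_contra hc
      push Not at hc
      have := mul_pos hρ hc
      linarith
    exact dist_le_zero.1 h2
  refine ⟨Finset.card_image_of_injOn hinj, ?_⟩
  rw [en_eq hs.ne', enR_eq hs.ne', Finset.sum_image hinj, Finset.mul_sum]
  refine Finset.sum_le_sum fun x hx => ?_
  rw [Finset.sum_image hinj, Finset.mul_sum]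
  refine Finset.sum_le_sum fun y hy => ?_
  unfold K
  by_cases hxy : x = y
  · subst hxy
    rw [dist_self, dist_self, Real.zero_rpow (by linarith), mul_zero]
  · have h0 : 0 < dist x y := dist_pos.2 hxy
    rw [← Real.mul_rpow hρ.le h0.le]
    exact Real.rpow_le_rpow_of_nonpos (mul_pos hρ h0) (hf x hx y hy) (by linarith)

/-- the map of the unit cube into the shrunken cube -/
noncomputable def emb (y : R d) (κ g : ℝ) (z : R d) : R d := y + diag d (κ * g / 2) + (κ * (1 - g)) • z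

lemma emb_apply (y : R d) (κ g : ℝ) (z : R d) (k : Fin d) :
    emb y κ g z k = y k + κ * g / 2 + κ * (1 - g) * z k := rfl

lemma emb_mem {y : R d} {κ g : ℝ} (hκ : 0 < κ) (hg0 : 0 < g) (hg1 : g < 1) {z : R d}
    (hz : z ∈ cube (0 : R d) 1) (k : Fin d) :
    y k + κ * g / 2 ≤ emb y κ g z k ∧ emb y κ g z k ≤ y k + κ - κ * g / 2 := by
  rw [emb_apply]
  have h := hz k
  rw [PiLp.zero_apply, zero_add] at h
  have h1 : 0 < κ * (1 - g) := mul_pos hκ (by linarith)
  constructor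
  · have := mul_nonneg h1.le h.1
    linarith
  · have := mul_le_mul_of_nonneg_left h.2 h1.le
    have e : κ * (1 - g) * 1 = κ - κ * g := by ring
    linarith

lemma emb_mem_cube {y : R d} {κ g : ℝ} (hκ : 0 < κ) (hg0 : 0 < g) (hg1 : g < 1) {z : R d}
    (hz : z ∈ cube (0 : R d) 1) : emb y κ g z ∈ cube y κ := by
  intro k
  have h := emb_mem (y := y) hκ hg0 hg1 hz k
  have h2 : 0 < κ * g / 2 := by positivity
  constructor
  · linarith [h.1]
  · linarith [h.2]

lemma dist_emb (y : R d) {κ g : ℝ} (hκ : 0 < κ) (hg1 : g < 1) (z w : R d) :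
    dist (emb y κ g z) (emb y κ g w) = κ * (1 - g) * dist z w := by
  unfold emb
  rw [dist_add_left, dist_smul₀, Real.norm_eq_abs, abs_of_pos (mul_pos hκ (by linarith))]

lemma exists_coord {y y' : R d} {κ : ℝ} (hκ : 0 < κ) (h : Disjoint (cubo y κ) (cubo y' κ)) :
    ∃ k, κ ≤ |y k - y' k| := by
  by_contra hc
  push Not at hc
  rw [Set.disjoint_left] at h
  refine h (a := WithLp.toLp 2 (fun k => max (y k) (y' k))) (fun k => ?_) (fun k => ?_)
  · have h1 := abs_lt.1 (hc k)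
    refine ⟨le_max_left _ _, max_lt ?_ ?_⟩
    · linarith
    · linarith
  · have h1 := abs_lt.1 (hc k)
    refine ⟨le_max_right _ _, max_lt ?_ ?_⟩
    · linarith
    · linarith

lemma emb_sep {y y' : R d} {κ g : ℝ} (hκ : 0 < κ) (hg0 : 0 < g) (hg1 : g < 1)
    (h : Disjoint (cubo y κ) (cubo y' κ)) {z w : R d}
    (hz : z ∈ cube (0 : R d) 1) (hw : w ∈ cube (0 : R d) 1) :
    κ * g ≤ dist (emb y κ g z) (emb y' κ g w) := by
  obtain ⟨k, hk⟩ := exists_coord hκ h
  have h1 := emb_mem (y := y) hκ hg0 hg1 hz k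
  have h2 := emb_mem (y := y') hκ hg0 hg1 hw k
  have h3 : |emb y κ g z k - emb y' κ g w k| ≤ dist (emb y κ g z) (emb y' κ g w) := by
    rw [dist_eq_norm]
    exact PiLp.norm_apply_le (emb y κ g z - emb y' κ g w) k
  refine le_trans ?_ h3
  rcases le_abs.1 hk with h4 | h4
  · refine le_trans ?_ (le_abs_self _)
    linarith [h1.1, h2.2]
  · refine le_trans ?_ (neg_le_abs _)
    linarith [h1.2, h2.1]

/-- the construction -/
theorem upper_construct (hd : 1 ≤ d) {s : ℝ} (hs : (d:ℝ) < s) {ε g : ℝ} (hε : 0 < ε)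
    (hε1 : ε < 1) (hg : 0 < g) (hg1 : g < 1) :
    ∃ (J : ℕ) (a : Fin J → ℝ) (B : ℝ), 0 ≤ B ∧ (∀ j, 0 < a j) ∧ (1 - ε) * omega d ≤ ∑ j, a j ∧
      ∀ (n : Fin J → ℕ) (N : ℕ), N ≤ ∑ j, n j → Emin s d N ≤
        ∑ j, (1 - g) ^ (-s) * (a j) ^ (-s / d) * (Ecube s d (n j) + 1) +
          B * (∑ j, (n j : ℝ)) ^ 2 := by
  classical
  have hd0 : (0:ℝ) < d := by exact_mod_cast hd
  have hs0 : 0 < s := hd0.trans hs
  have hω := omega_pos hd
  obtain ⟨J, κ, y, l, hκ, hl, hlam, hdis, hlow, -, -⟩ := coarse1 hd ε hε hε1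
  have hJ : 0 < J := by
    rcases Nat.eq_zero_or_pos J with h | h
    · subst h
      simp only [Finset.univ_eq_empty, Finset.sum_empty] at hlow
      have : 0 < (1 - ε) * omega d := mul_pos (by linarith) hω
      linarith
    · exact h
  have hne : (Finset.univ : Finset (Fin J)).Nonempty := ⟨⟨0, hJ⟩, Finset.mem_univ _⟩
  obtain ⟨j0, -, hj0⟩ := Finset.exists_min_image Finset.univ l hne
  set m := l j0 with hm
  have hm0 : 0 < m := hl j0
  refine ⟨J, fun j => (l j * κ) ^ d, (m * (κ * g)) ^ (-s), by positivity,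
    fun j => pow_pos (mul_pos (hl j) hκ) d, hlow, fun n N hN => ?_⟩
  choose X hXc hXm hXe using fun j => exists_lt_Ecube hd s (n j) 1 one_pos
  set f : Fin J → R d → S d := fun j z => Th (emb (y j) κ g z) with hf
  set Y : Fin J → Finset (S d) := fun j => (X j).image (f j) with hY
  have h1g : 0 < 1 - g := by linarith
  have hρ : ∀ j, 0 < l j * (κ * (1 - g)) := fun j => mul_pos (hl j) (mul_pos hκ h1g)
  have hexp : ∀ j, ∀ x ∈ X j, ∀ z ∈ X j, l j * (κ * (1 - g)) * dist x z ≤ dist (f j x) (f j z) := by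
    intro j x hx z hz
    have hx' := hlam j _ (emb_mem_cube (y := y j) hκ hg hg1 (hXm j x hx))
    have hz' := hlam j _ (emb_mem_cube (y := y j) hκ hg hg1 (hXm j z hz))
    have h := (dist_bounds (hl j) hε.le hx'.1 hx'.2 hz'.1 hz'.2).1
    rw [dist_emb _ hκ hg1] at h
    rw [hf]
    linarith
  have hcross : ∀ i j, i ≠ j → ∀ x ∈ Y i, ∀ z ∈ Y j, m * (κ * g) ≤ dist x z := by
    intro i j hij x hx z hz
    rw [hY, Finset.mem_image] at hx hz
    obtain ⟨x', hx', rfl⟩ := hx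
    obtain ⟨z', hz', rfl⟩ := hz
    have h1 := (hlam i _ (emb_mem_cube (y := y i) hκ hg hg1 (hXm i x' hx'))).1
    have h2 := (hlam j _ (emb_mem_cube (y := y j) hκ hg hg1 (hXm j z' hz'))).1
    have h3 := emb_sep (y := y i) (y' := y j) hκ hg hg1 (hdis i j hij) (hXm i x' hx') (hXm j z' hz')
    rw [hf]
    simp only
    rw [dist_Th]
    have h4 : m ≤ √(lam (emb (y i) κ g x') * lam (emb (y j) κ g z')) := by
      apply Real.le_sqrt_of_sq_le
      rw [sq]
      exact mul_le_mul ((hj0 i (Finset.mem_univ _)).trans h1) ((hj0 j (Finset.mem_univ _)).trans h2)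
        hm0.le (lam_pos _).le
    exact mul_le_mul h4 h3 (by positivity) (Real.sqrt_nonneg _)
  have hmg : 0 < m * (κ * g) := by positivity
  have hdisY : ∀ i j, i ≠ j → Disjoint (Y i) (Y j) := by
    intro i j hij
    rw [Finset.disjoint_left]
    intro x hx hx'
    have := hcross i j hij x hx x hx'
    rw [dist_self] at this
    linarith
  have hcardY : ∀ j, (Y j).card = n j := fun j =>
    (en_image_le hs0 (X j) (f j) (hρ j) (hexp j)).1.trans (hXc j)
  have hcard : (Finset.univ.biUnion Y).card = ∑ j, n j := by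
    rw [Finset.card_biUnion (fun i _ j _ hij => hdisY i j hij)]
    exact Finset.sum_congr rfl fun j _ => hcardY j
  have h1 := Emin_le_of_card hs0.ne' (N := N) (Finset.univ.biUnion Y) (by rw [hcard]; exact hN)
  have h2 := en_biUnion_le hs0.ne' Y (B := (m * (κ * g)) ^ (-s)) hdisY
    (fun i j hij x hx z hz => K_le hs0 hmg (hcross i j hij x hx z hz)) (by positivity)
  simp only [hcardY] at h2
  refine h1.trans (h2.trans ?_)
  gcongr with j _
  have h3 := (en_image_le hs0 (X j) (f j) (hρ j) (hexp j)).2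
  refine h3.trans ?_
  have e1 : (l j * (κ * (1 - g))) ^ (-s) = (1 - g) ^ (-s) * ((l j * κ) ^ d) ^ (-s / d) := by
    have hlκ : 0 < l j * κ := mul_pos (hl j) hκ
    rw [← Real.rpow_natCast_mul hlκ.le, mul_div_cancel₀ _ hd0.ne', ← Real.mul_rpow h1g.le hlκ.le]
    congr 1
    ring
  rw [e1]
  have hpos : 0 ≤ (1 - g) ^ (-s) * ((l j * κ) ^ d) ^ (-s / d) := by
    have hlκ : 0 < l j * κ := mul_pos (hl j) hκ
    positivity
  exact mul_le_mul_of_nonneg_left (hXe j).le hpos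

end UpperAux

open CoarseAux UpperAux

theorem hs_upper {d : ℕ} (hd : 1 ≤ d) {s : ℝ} (hs : (d:ℝ) < s) (C : ℝ)
    (hC : Tendsto (fun N : ℕ => Ecube s d N / (N : ℝ) ^ (1 + s / d)) atTop (𝓝 C))
    (ε : ℝ) (hε : 0 < ε) :
    ∀ᶠ N : ℕ in atTop, Emin s d N / (N : ℝ) ^ (1 + s / d) ≤ C * (omega d) ^ (-s / d) + ε := by
  have hd0 : (0:ℝ) < d := by exact_mod_cast hd
  have hs0 : 0 < s := hd0.trans hs
  have hω := omega_pos hd
  have hC0 : 0 ≤ C := ge_of_tendsto' hC fun N => div_nonneg (Ecube_nonneg s d N) (by positivity)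
  set p : ℝ := 1 + s / d with hp
  have hsd : 1 < s / d := (one_lt_div hd0).2 hs
  have hp0 : 0 < p := by rw [hp]; linarith
  -- choice of the parameter
  obtain ⟨η, hη0, hη1, hη2⟩ : ∃ η : ℝ, 0 < η ∧ η < 1 ∧
      (1 - η) ^ (-s) * C * ((1 - η) * omega d) ^ (-s / d) < C * (omega d) ^ (-s / d) + ε := by
    have h1 : Tendsto (fun η : ℝ => (1 - η) ^ (-s) * C * ((1 - η) * omega d) ^ (-s / d)) (𝓝[>] 0)
        (𝓝 ((1 - 0) ^ (-s) * C * ((1 - 0) * omega d) ^ (-s / d))) := by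
      refine Tendsto.mono_left ?_ nhdsWithin_le_nhds
      have hc : Tendsto (fun η : ℝ => 1 - η) (𝓝 0) (𝓝 (1 - 0)) := (Continuous.tendsto (by fun_prop) 0)
      refine Tendsto.mul (Tendsto.mul_const _ (hc.rpow_const (Or.inl (by norm_num)))) ?_
      refine (hc.mul_const _).rpow_const (Or.inl ?_)
      rw [sub_zero, one_mul]; exact hω.ne'
    have h2 : (1 - 0 : ℝ) ^ (-s) * C * ((1 - 0) * omega d) ^ (-s / d) < C * (omega d) ^ (-s / d) + ε := by
      rw [sub_zero, one_mul, Real.one_rpow, one_mul]; linarith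
    have e1 := h1.eventually (gt_mem_nhds h2)
    have e3 : ∀ᶠ η : ℝ in 𝓝[>] 0, 0 < η := eventually_mem_nhdsWithin
    have e4 : ∀ᶠ η : ℝ in 𝓝[>] 0, η < 1 :=
      (tendsto_nhdsWithin_of_tendsto_nhds tendsto_id).eventually (gt_mem_nhds one_pos)
    obtain ⟨η, h1, h2, h3⟩ := (e1.and (e3.and e4)).exists
    exact ⟨η, h2, h3, h1⟩
  obtain ⟨J, a, B, hB, ha, hsum, hmain⟩ := upper_construct hd hs hη0 hη1 hη0 hη1
  set A : ℝ := ∑ j, a j with hA
  have hA0 : 0 < A := lt_of_lt_of_le (mul_pos (by linarith) hω) hsum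
  set n : ℕ → Fin J → ℕ := fun N j => ⌈a j / A * (N : ℝ)⌉₊ with hn
  have hr : ∀ j, 0 < a j / A := fun j => div_pos (ha j) hA0
  have hnN : ∀ N : ℕ, N ≤ ∑ j, n N j := by
    intro N
    have h1 : (N : ℝ) ≤ ((∑ j, n N j : ℕ) : ℝ) := by
      push_cast
      calc (N : ℝ) = ∑ j, a j / A * (N : ℝ) := by
            rw [← Finset.sum_mul, ← Finset.sum_div, ← hA, div_self hA0.ne', one_mul]
        _ ≤ ∑ j, (n N j : ℝ) := Finset.sum_le_sum fun j _ => Nat.le_ceil _
    exact_mod_cast h1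
  have hlim : ∀ j, Tendsto (fun N : ℕ => (n N j : ℝ) / N) atTop (𝓝 (a j / A)) := fun j =>
    (tendsto_nat_ceil_mul_div_atTop (hr j).le).comp tendsto_natCast_atTop_atTop
  have hinf : ∀ j, Tendsto (fun N : ℕ => n N j) atTop atTop := by
    intro j
    have h1 : Tendsto (fun N : ℕ => a j / A * (N : ℝ)) atTop atTop :=
      tendsto_natCast_atTop_atTop.const_mul_atTop (hr j)
    exact tendsto_nat_ceil_atTop.comp h1
  have hNp : Tendsto (fun N : ℕ => ((N : ℝ) ^ p)⁻¹) atTop (𝓝 0) := by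
    have := (tendsto_rpow_neg_atTop hp0).comp (tendsto_natCast_atTop_atTop (R := ℝ))
    refine this.congr fun N => ?_
    simp only [Function.comp]
    rw [Real.rpow_neg (by positivity)]
  have hterm : ∀ j, Tendsto (fun N : ℕ => (1 - η) ^ (-s) * (a j) ^ (-s / d) *
      (Ecube s d (n N j) + 1) / (N : ℝ) ^ p) atTop
      (𝓝 ((1 - η) ^ (-s) * (a j) ^ (-s / d) * (C * (a j / A) ^ p))) := by
    intro j
    have h1 : Tendsto (fun N : ℕ => Ecube s d (n N j) / (n N j : ℝ) ^ p * ((n N j : ℝ) / N) ^ p +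
        ((N : ℝ) ^ p)⁻¹) atTop (𝓝 (C * (a j / A) ^ p + 0)) := by
      refine Tendsto.add (Tendsto.mul ?_ ?_) hNp
      · exact hC.comp (hinf j)
      · exact (hlim j).rpow_const (Or.inl (hr j).ne')
    rw [add_zero] at h1
    refine (h1.const_mul ((1 - η) ^ (-s) * (a j) ^ (-s / d))).congr' ?_
    filter_upwards [eventually_gt_atTop 0, (hinf j).eventually_gt_atTop 0] with N hN hnj
    have hN' : (0:ℝ) < N := by exact_mod_cast hN
    have hn' : (0:ℝ) < n N j := by exact_mod_cast hnj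
    rw [Real.div_rpow hn'.le hN'.le]
    have e1 : (0:ℝ) < (n N j : ℝ) ^ p := by positivity
    have e2 : (0:ℝ) < (N : ℝ) ^ p := by positivity
    field_simp
  have hcross : Tendsto (fun N : ℕ => B * (∑ j, (n N j : ℝ)) ^ 2 / (N : ℝ) ^ p) atTop (𝓝 0) := by
    have h1 : Tendsto (fun N : ℕ => B * (∑ j, (n N j : ℝ) / N) ^ 2 * (N : ℝ) ^ (-(s / d - 1)))
        atTop (𝓝 (B * (∑ j, a j / A) ^ 2 * 0)) := by
      refine Tendsto.mul (Tendsto.const_mul _ ((tendsto_finsetSum _ fun j _ => hlim j).pow 2)) ?_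
      exact (tendsto_rpow_neg_atTop (by linarith)).comp tendsto_natCast_atTop_atTop
    rw [mul_zero] at h1
    refine h1.congr' ?_
    filter_upwards [eventually_gt_atTop 0] with N hN
    have hN' : (0:ℝ) < N := by exact_mod_cast hN
    have e1 : (N : ℝ) ^ (-(s / d - 1)) = (N : ℝ) ^ 2 / (N : ℝ) ^ p := by
      rw [← Real.rpow_natCast, ← Real.rpow_sub hN']
      congr 1
      rw [hp]; push_cast; ring
    rw [e1, ← Finset.sum_div]
    have e2 : (0:ℝ) < (N : ℝ) ^ p := by positivity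
    field_simp
  have hU := (tendsto_finsetSum Finset.univ fun j _ => hterm j).add hcross
  rw [add_zero] at hU
  have hval : ∑ j, (1 - η) ^ (-s) * (a j) ^ (-s / d) * (C * (a j / A) ^ p) =
      (1 - η) ^ (-s) * C * A ^ (-s / d) := by
    have h1 : ∀ j, (1 - η) ^ (-s) * (a j) ^ (-s / d) * (C * (a j / A) ^ p) =
        (1 - η) ^ (-s) * C * (A ^ (-p)) * a j := by
      intro j
      rw [Real.div_rpow (ha j).le hA0.le, Real.rpow_neg hA0.le]
      have h2 : (a j) ^ (-s / d) * (a j) ^ p = a j := by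
        rw [← Real.rpow_add (ha j)]
        have : -s / d + p = 1 := by rw [hp]; ring
        rw [this, Real.rpow_one]
      calc (1 - η) ^ (-s) * (a j) ^ (-s / d) * (C * ((a j) ^ p / A ^ p))
          = (1 - η) ^ (-s) * C * (A ^ p)⁻¹ * ((a j) ^ (-s / d) * (a j) ^ p) := by
            rw [div_eq_mul_inv]; ring
        _ = _ := by rw [h2]
    rw [Finset.sum_congr rfl fun j _ => h1 j, ← Finset.mul_sum, ← hA, mul_assoc]
    congr 1
    calc A ^ (-p) * A = A ^ (-p) * A ^ (1:ℝ) := by rw [Real.rpow_one]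
      _ = A ^ (-s / d) := by
        rw [← Real.rpow_add hA0]
        congr 1
        rw [hp]; ring
  rw [hval] at hU
  have hlt : (1 - η) ^ (-s) * C * A ^ (-s / d) < C * (omega d) ^ (-s / d) + ε := by
    refine lt_of_le_of_lt ?_ hη2
    have h1η : 0 < 1 - η := by linarith
    have h1 : A ^ (-s / d) ≤ ((1 - η) * omega d) ^ (-s / d) := by
      apply Real.rpow_le_rpow_of_nonpos (mul_pos h1η hω) hsum
      rw [neg_div]
      linarith
    exact mul_le_mul_of_nonneg_left h1 (by positivity)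
  filter_upwards [hU.eventually (gt_mem_nhds hlt), eventually_gt_atTop 0] with N hN hN0
  have hN' : (0:ℝ) < (N : ℝ) := by exact_mod_cast hN0
  have h1 := hmain (n N) N (hnN N)
  have h2 : Emin s d N / (N : ℝ) ^ p ≤ ∑ j, (1 - η) ^ (-s) * (a j) ^ (-s / d) *
      (Ecube s d (n N j) + 1) / (N : ℝ) ^ p + B * (∑ j, (n N j : ℝ)) ^ 2 / (N : ℝ) ^ p := by
    rw [← Finset.sum_div, ← add_div]
    gcongr
  exact h2.trans hN.le

end Helper23.Riesz
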