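import Pool.Agent.Helper94.Riesz.Defs2

/-!
# Riesz energy on spheres: module COARSE (adapted from the module GEO of helper52)
-/

set_option autoImplicit false
open MeasureTheory Set Filter Topology
open scoped ENNReal NNReal Pointwise

namespace Helper23.Riesz

namespace CoarseAux

variable {d : ℕ}

lemma continuous_lam : Continuous (lam : R d → ℝ) := by
  unfold lam
  exact continuous_const.div (by fun_prop) (fun y => by positivity)

lemma measurable_lam_pow (n : ℕ) : Measurable (fun y : R d => ENNReal.ofReal (lam y ^ n)) :=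
  ((continuous_lam.pow n).measurable).ennreal_ofReal

lemma abs_lam_sub_le (y w : R d) : |lam y - lam w| ≤ 2 * ‖y - w‖ := by
  have h1 : lam y - lam w = 2 * ((‖w‖ - ‖y‖) * ((‖w‖ + ‖y‖) / ((1 + ‖y‖ ^ 2) * (1 + ‖w‖ ^ 2)))) := by
    unfold lam
    field_simp
    ring
  have h2 : (‖w‖ + ‖y‖) / ((1 + ‖y‖ ^ 2) * (1 + ‖w‖ ^ 2)) ≤ 1 := by
    rw [div_le_one (by positivity)]
    nlinarith [sq_nonneg (‖y‖ - 1), sq_nonneg (‖w‖ - 1), mul_nonneg (sq_nonneg ‖y‖) (sq_nonneg ‖w‖)]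
  have h3 : 0 ≤ (‖w‖ + ‖y‖) / ((1 + ‖y‖ ^ 2) * (1 + ‖w‖ ^ 2)) := by positivity
  rw [h1, abs_mul, abs_mul, abs_of_pos (by norm_num : (0:ℝ) < 2), abs_of_nonneg h3]
  have h4 : |‖w‖ - ‖y‖| ≤ ‖y - w‖ := by
    rw [abs_sub_comm]; exact abs_norm_sub_norm_le y w
  have h5 : |‖w‖ - ‖y‖| * ((‖w‖ + ‖y‖) / ((1 + ‖y‖ ^ 2) * (1 + ‖w‖ ^ 2))) ≤ ‖y - w‖ * 1 :=
    mul_le_mul h4 h2 h3 (norm_nonneg _)
  linarith

lemma integrable_lam_pow (hd : 1 ≤ d) : Integrable (fun y : R d => lam y ^ d) := by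
  have h := integrable_rpow_neg_one_add_norm_sq (E := R d) (μ := volume) (r := 2 * d)
    (by
      rw [finrank_euclideanSpace_fin]
      have : (1:ℝ) ≤ d := by exact_mod_cast hd
      linarith)
  have h2 := h.const_mul (2 ^ d)
  refine h2.congr (ae_of_all _ fun y => ?_)
  unfold lam
  have h3 : (-(2 * (d:ℝ)) / 2) = -(d:ℝ) := by ring
  simp only [h3]
  rw [div_pow, Real.rpow_neg (by positivity), Real.rpow_natCast]
  rfl

lemma cubo_subset_cube (c : R d) (s : ℝ) : cubo c s ⊆ cube c s :=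
  fun _ hy i => ⟨(hy i).1, (hy i).2.le⟩

lemma cubo_eq (c : R d) (s : ℝ) :
    cubo c s = (WithLp.ofLp : R d → (Fin d → ℝ)) ⁻¹' (Set.univ.pi fun i => Set.Ico (c i) (c i + s)) := by
  ext y
  simp [cubo, Set.mem_pi]

lemma measurableSet_cubo (c : R d) (s : ℝ) : MeasurableSet (cubo c s) := by
  rw [cubo_eq]
  exact (PiLp.volume_preserving_ofLp (Fin d)).measurable
    (MeasurableSet.univ_pi fun i => measurableSet_Ico)

lemma volume_cubo (c : R d) (s : ℝ) : volume (cubo c s) = ENNReal.ofReal s ^ d := by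
  rw [cubo_eq, (PiLp.volume_preserving_ofLp (Fin d)).measure_preimage
    (MeasurableSet.univ_pi fun i => measurableSet_Ico).nullMeasurableSet, Real.volume_pi_Ico]
  simp

lemma volume_real_cubo (c : R d) {s : ℝ} (hs : 0 ≤ s) : (volume : Measure (R d)).real (cubo c s) = s ^ d := by
  rw [Measure.real, volume_cubo, ENNReal.toReal_pow, ENNReal.toReal_ofReal hs]

lemma norm_sub_le_of_mem_cube {c y w : R d} {s : ℝ} (hs : 0 ≤ s) (hy : y ∈ cube c s) (hw : w ∈ cube c s) :
    ‖y - w‖ ≤ d * s := by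
  have h1 : ‖y - w‖ ^ 2 ≤ (d * s) ^ 2 := by
    rw [EuclideanSpace.norm_sq_eq]
    calc ∑ i, ‖(y - w) i‖ ^ 2 ≤ ∑ _i : Fin d, s ^ 2 := by
          refine Finset.sum_le_sum fun i _ => ?_
          have h2 := hy i
          have h3 := hw i
          rw [Real.norm_eq_abs, sq_abs]
          have : (y - w) i = y i - w i := rfl
          rw [this]
          apply sq_le_sq'
          · linarith
          · linarith
      _ = d * s ^ 2 := by simp
      _ ≤ (d * s) ^ 2 := by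
          rcases Nat.eq_zero_or_pos d with h | h
          · subst h; simp
          · have : (1:ℝ) ≤ d := by exact_mod_cast h
            nlinarith [sq_nonneg s, mul_nonneg (sub_nonneg.2 this) (sq_nonneg s)]
  exact (le_abs_self _).trans (abs_le_of_sq_le_sq h1 (by positivity))

lemma dist_Th (x y : R d) : dist (Th x) (Th y) = √(lam x * lam y) * dist x y := by
  have h := dist_Th_sq x y
  have h2 : (√(lam x * lam y) * dist x y) ^ 2 = lam x * lam y * (dist x y) ^ 2 := by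
    rw [mul_pow, Real.sq_sqrt (mul_nonneg (lam_pos x).le (lam_pos y).le)]
  have h3 : (dist (Th x) (Th y)) ^ 2 = (√(lam x * lam y) * dist x y) ^ 2 := by rw [h, h2]
  exact (sq_eq_sq₀ dist_nonneg (by positivity)).1 h3

/-- corner of the `k`-th subcube -/
def corner (c : R d) (h : ℝ) {N : ℕ} (k : Fin d → Fin N) : R d :=
  WithLp.toLp 2 (fun i => c i + h * ((k i : ℕ) : ℝ))

lemma corner_apply (c : R d) (h : ℝ) {N : ℕ} (k : Fin d → Fin N) (i : Fin d) :
    corner c h k i = c i + h * ((k i : ℕ) : ℝ) := rfl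

lemma cube_corner_subset {c : R d} {h s : ℝ} {N : ℕ} (hh : 0 ≤ h) (hN : N * h ≤ s)
    (k : Fin d → Fin N) : cube (corner c h k) h ⊆ cube c s := by
  intro y hy i
  have h1 := hy i
  rw [corner_apply] at h1
  have h2 : ((k i : ℕ) : ℝ) + 1 ≤ N := by exact_mod_cast (k i).2
  have h3 : 0 ≤ h * ((k i : ℕ) : ℝ) := by positivity
  have h4 : h * (((k i : ℕ) : ℝ) + 1) ≤ h * N := mul_le_mul_of_nonneg_left h2 hh
  constructor
  · linarith [h1.1]
  · nlinarith [h1.2]

lemma cubo_corner_disjoint {c : R d} {h : ℝ} {N : ℕ} (hh : 0 < h) {k k' : Fin d → Fin N}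
    (hk : k ≠ k') : Disjoint (cubo (corner c h k) h) (cubo (corner c h k') h) := by
  rw [Set.disjoint_left]
  intro y hy hy'
  apply hk
  funext i
  have h1 := hy i
  have h2 := hy' i
  rw [corner_apply] at h1 h2
  have h3 : h * ((k i : ℕ) : ℝ) < h * (((k' i : ℕ) : ℝ) + 1) := by linarith [h1.1, h2.2]
  have h4 : h * ((k' i : ℕ) : ℝ) < h * (((k i : ℕ) : ℝ) + 1) := by linarith [h1.2, h2.1]
  have h5 : ((k i : ℕ) : ℝ) < ((k' i : ℕ) : ℝ) + 1 := lt_of_mul_lt_mul_left h3 hh.le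
  have h6 : ((k' i : ℕ) : ℝ) < ((k i : ℕ) : ℝ) + 1 := lt_of_mul_lt_mul_left h4 hh.le
  have h7 : (k i : ℕ) < (k' i : ℕ) + 1 := by exact_mod_cast h5
  have h8 : (k' i : ℕ) < (k i : ℕ) + 1 := by exact_mod_cast h6
  apply Fin.ext
  omega

lemma cubo_subset_iUnion {c : R d} {h : ℝ} {N : ℕ} (hh : 0 < h) :
    cubo c (N * h) ⊆ ⋃ k : Fin d → Fin N, cubo (corner c h k) h := by
  intro y hy
  have h1 : ∀ i, 0 ≤ (y i - c i) / h := fun i => div_nonneg (by linarith [(hy i).1]) hh.le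
  have h2 : ∀ i, ⌊(y i - c i) / h⌋₊ < N := by
    intro i
    rw [Nat.floor_lt (h1 i), div_lt_iff₀ hh]
    linarith [(hy i).2]
  rw [Set.mem_iUnion]
  refine ⟨fun i => ⟨⌊(y i - c i) / h⌋₊, h2 i⟩, fun i => ?_⟩
  rw [corner_apply]
  have h3 := Nat.floor_le (h1 i)
  have h4 := Nat.lt_floor_add_one ((y i - c i) / h)
  rw [le_div_iff₀ hh] at h3
  rw [div_lt_iff₀ hh] at h4
  constructor
  · simp only
    linarith
  · simp only
    linarith

lemma sq_norm_le {z : R d} {M : ℝ} (hz : ∀ i, |z i| ≤ M) : ‖z‖ ^ 2 ≤ d * M ^ 2 := by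
  rw [EuclideanSpace.norm_sq_eq]
  calc ∑ i, ‖z i‖ ^ 2 ≤ ∑ _i : Fin d, M ^ 2 := by
        refine Finset.sum_le_sum fun i _ => ?_
        rw [Real.norm_eq_abs]
        exact pow_le_pow_left₀ (abs_nonneg _) (hz i) 2
    _ = d * M ^ 2 := by simp

lemma lam_ge_of_norm {z : R d} {x : ℝ} (hz : ‖z‖ ^ 2 ≤ x) : 2 / (1 + x) ≤ lam z := by
  unfold lam
  have h0 : 0 ≤ ‖z‖ ^ 2 := by positivity
  exact div_le_div_of_nonneg_left (by norm_num) (by positivity) (by linarith)

/-- the point with all coordinates equal -/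
def diag (d : ℕ) (x : ℝ) : R d := WithLp.toLp 2 (fun _ => x)

lemma diag_apply (x : ℝ) (i : Fin d) : diag d x i = x := rfl

lemma exists_box (hd : 1 ≤ d) {η : ℝ} (hη : 0 < η) : ∃ M : ℕ, 1 ≤ M ∧
    (1 - η) * omega d ≤ ∫ y in cubo (diag d (-(M:ℝ))) (2 * M), lam y ^ d := by
  have hω := omega_pos hd
  have hmono : Monotone (fun M : ℕ => cubo (diag d (-(M:ℝ))) (2 * M)) := by
    intro M M' hM y hy i
    have h := hy i
    rw [diag_apply] at h
    rw [diag_apply]
    have h2 : (M:ℝ) ≤ M' := by exact_mod_cast hM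
    constructor
    · linarith [h.1]
    · linarith [h.2]
  have hU : (⋃ M : ℕ, cubo (diag d (-(M:ℝ))) (2 * M)) = Set.univ := by
    refine Set.eq_univ_of_forall fun y => ?_
    rw [Set.mem_iUnion]
    obtain ⟨M, hM⟩ := exists_nat_gt ‖y‖
    refine ⟨M, fun i => ?_⟩
    have h1 : |y i| ≤ ‖y‖ := PiLp.norm_apply_le y i
    have h2 := abs_lt.1 (lt_of_le_of_lt h1 hM)
    rw [diag_apply]
    constructor
    · exact h2.1.le
    · linarith [h2.2]
  have ht := tendsto_setIntegral_of_monotone (μ := (volume : Measure (R d)))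
    (f := fun y => lam y ^ d) (fun M : ℕ => measurableSet_cubo (diag d (-(M:ℝ))) (2 * M)) hmono
    ((integrable_lam_pow hd).integrableOn)
  rw [hU, setIntegral_univ] at ht
  have h1 : (1 - η) * omega d < ∫ y : R d, lam y ^ d := by
    change _ < omega d
    nlinarith
  have h2 := (ht.eventually (lt_mem_nhds h1)).and (eventually_ge_atTop 1)
  obtain ⟨M, hM1, hM2⟩ := h2.exists
  exact ⟨M, hM2, hM1.le⟩

lemma abs_le_of_mem_box {M : ℝ} {y : R d} (hy : y ∈ cube (diag d (-M)) (2 * M)) (i : Fin d) :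
    |y i| ≤ M := by
  have h := hy i
  rw [diag_apply] at h
  rw [abs_le]
  constructor
  · exact h.1
  · linarith [h.2]

lemma osc {c : R d} {κ η l : ℝ} (hκ : 0 ≤ κ) (hl : 0 < l) (hη : 2 * d * κ ≤ η * l)
    (hc : ∀ w ∈ cube c κ, l ≤ lam w) {y w : R d} (hy : y ∈ cube c κ) (hw : w ∈ cube c κ) :
    lam w ≤ (1 + η) * lam y := by
  have h1 := abs_lam_sub_le w y
  have h2 := norm_sub_le_of_mem_cube hκ hw hy
  have h3 := hc y hy
  have h4 := le_abs_self (lam w - lam y)
  have hη0 : 0 ≤ η := by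
    have : 0 ≤ η * l := le_trans (by positivity) hη
    exact nonneg_of_mul_nonneg_left this hl
  nlinarith

lemma corner_mem {c : R d} {h : ℝ} {N : ℕ} (hh : 0 < h) (k : Fin d → Fin N) :
    corner c h k ∈ cube (corner c h k) h := fun i => ⟨le_rfl, by linarith⟩

/-- coarse decomposition, first version -/
theorem coarse0 (hd : 1 ≤ d) {η : ℝ} (hη : 0 < η) :
    ∃ (κ l : ℝ) (Nc : ℕ) (c : R d) (L : (Fin d → Fin Nc) → ℝ), 0 < κ ∧ 0 < l ∧
      (∀ j, l ≤ L j) ∧
      (∀ j, ∀ w ∈ cube (corner c κ j) κ, L j ≤ lam w ∧ lam w ≤ (1 + η) ^ 2 * L j) ∧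
      (1 - η) * omega d ≤ (∫ y in ⋃ j : Fin d → Fin Nc, cubo (corner c κ j) κ, lam y ^ d) ∧
      (1 - η) * omega d ≤ ∑ j, ((1 + η) ^ 2 * L j * κ) ^ d ∧
      ∑ j, (L j * κ) ^ d ≤ omega d := by
  obtain ⟨M, hM1, hM⟩ := exists_box hd hη
  have hM0 : (1:ℝ) ≤ M := by exact_mod_cast hM1
  set l0 : ℝ := 2 / (1 + d * (M:ℝ) ^ 2) with hl0
  have hl0pos : 0 < l0 := by positivity
  obtain ⟨m, hm⟩ := exists_nat_gt (2 * d / (η * l0))
  have hmpos : (0:ℝ) < m := lt_of_le_of_lt (by positivity) hm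
  have hm1 : 2 * d * (1 / (m:ℝ)) ≤ η * l0 := by
    rw [div_lt_iff₀ (by positivity)] at hm
    rw [mul_one_div, div_le_iff₀ hmpos]
    linarith
  set κ : ℝ := 1 / (m:ℝ) with hκ
  have hκpos : 0 < κ := by positivity
  set Nc : ℕ := 2 * M * m with hNc
  have hNκ : (Nc:ℝ) * κ = 2 * M := by
    rw [hNc, hκ]; push_cast; field_simp
  set c : R d := diag d (-(M:ℝ)) with hc
  have hsub : ∀ j : Fin d → Fin Nc, cube (corner c κ j) κ ⊆ cube c (2 * M) :=
    fun j => cube_corner_subset hκpos.le hNκ.le j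
  have hlow : ∀ j : Fin d → Fin Nc, ∀ w ∈ cube (corner c κ j) κ, l0 ≤ lam w := by
    intro j w hw
    exact lam_ge_of_norm (sq_norm_le (abs_le_of_mem_box (hsub j hw)))
  have hosc : ∀ j : Fin d → Fin Nc, ∀ w ∈ cube (corner c κ j) κ, ∀ y ∈ cube (corner c κ j) κ,
      lam w ≤ (1 + η) * lam y := fun j w hw y hy => osc hκpos.le hl0pos hm1 (hlow j) hy hw
  have hint := integrable_lam_pow hd (d := d)
  have hbig : (1 - η) * omega d ≤ ∫ y in ⋃ j : Fin d → Fin Nc, cubo (corner c κ j) κ, lam y ^ d := by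
    refine hM.trans ?_
    apply setIntegral_mono_set hint.integrableOn
    · exact ae_of_all _ fun y => pow_nonneg (lam_pos y).le d
    · rw [← hNκ]
      exact (cubo_subset_iUnion hκpos).eventuallyLE
  have hsplit : ∫ y in ⋃ j : Fin d → Fin Nc, cubo (corner c κ j) κ, lam y ^ d =
      ∑ j : Fin d → Fin Nc, ∫ y in cubo (corner c κ j) κ, lam y ^ d := by
    apply integral_iUnion_fintype (fun j => measurableSet_cubo _ _)
    · intro j j' hj
      exact cubo_corner_disjoint hκpos hj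
    · exact fun j => hint.integrableOn
  have hL1 : ∀ j : Fin d → Fin Nc, ∀ w ∈ cube (corner c κ j) κ,
      lam (corner c κ j) / (1 + η) ≤ lam w := by
    intro j w hw
    have h2 := hosc j _ (corner_mem hκpos j) w hw
    rw [div_le_iff₀ (by positivity)]
    linarith
  refine ⟨κ, l0 / (1 + η), Nc, c, fun j => lam (corner c κ j) / (1 + η), hκpos, by positivity,
    ?_, ?_, hbig, ?_, ?_⟩
  · intro j
    have := hlow j _ (corner_mem hκpos j)
    exact div_le_div_of_nonneg_right this (by positivity)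
  · intro j w hw
    have h1 := hosc j w hw _ (corner_mem hκpos j)
    refine ⟨hL1 j w hw, ?_⟩
    have : (1 + η) ^ 2 * (lam (corner c κ j) / (1 + η)) = (1 + η) * lam (corner c κ j) := by
      field_simp
    rw [this]
    exact h1
  · calc (1 - η) * omega d
        ≤ ∫ y in ⋃ j : Fin d → Fin Nc, cubo (corner c κ j) κ, lam y ^ d := hbig
      _ = ∑ j : Fin d → Fin Nc, ∫ y in cubo (corner c κ j) κ, lam y ^ d := hsplit
      _ ≤ ∑ j : Fin d → Fin Nc, ((1 + η) ^ 2 * (lam (corner c κ j) / (1 + η)) * κ) ^ d := by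
          refine Finset.sum_le_sum fun j _ => ?_
          have e1 : (1 + η) ^ 2 * (lam (corner c κ j) / (1 + η)) = (1 + η) * lam (corner c κ j) := by
            field_simp
          rw [e1]
          calc ∫ y in cubo (corner c κ j) κ, lam y ^ d
              ≤ ∫ _y in cubo (corner c κ j) κ, ((1 + η) * lam (corner c κ j)) ^ d := by
                apply setIntegral_mono_on hint.integrableOn
                · exact integrableOn_const (by rw [volume_cubo]; finiteness)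
                · exact measurableSet_cubo _ _
                · intro y hy
                  exact pow_le_pow_left₀ (lam_pos y).le (hosc j y (cubo_subset_cube _ _ hy) _
                    (corner_mem hκpos j)) d
            _ = ((1 + η) * lam (corner c κ j) * κ) ^ d := by
                rw [setIntegral_const, volume_real_cubo _ hκpos.le, smul_eq_mul, mul_pow _ κ,
                  mul_comm]
  · calc ∑ j : Fin d → Fin Nc, (lam (corner c κ j) / (1 + η) * κ) ^ d
        ≤ ∑ j : Fin d → Fin Nc, ∫ y in cubo (corner c κ j) κ, lam y ^ d := by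
          refine Finset.sum_le_sum fun j _ => ?_
          calc (lam (corner c κ j) / (1 + η) * κ) ^ d
              = ∫ _y in cubo (corner c κ j) κ, (lam (corner c κ j) / (1 + η)) ^ d := by
                rw [setIntegral_const, volume_real_cubo _ hκpos.le, smul_eq_mul, mul_pow _ κ,
                  mul_comm]
            _ ≤ _ := by
                apply setIntegral_mono_on _ hint.integrableOn
                · exact measurableSet_cubo _ _
                · intro y hy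
                  exact pow_le_pow_left₀ (div_nonneg (lam_pos _).le (by positivity))
                    (hL1 j y (cubo_subset_cube _ _ hy)) d
                · exact integrableOn_const (by rw [volume_cubo]; finiteness)
      _ = ∫ y in ⋃ j : Fin d → Fin Nc, cubo (corner c κ j) κ, lam y ^ d := hsplit.symm
      _ ≤ ∫ y : R d, lam y ^ d := by
          exact setIntegral_le_integral hint (ae_of_all _ fun y => pow_nonneg (lam_pos y).le d)
      _ = omega d := rfl

lemma exists_small (d : ℕ) {ε : ℝ} (hε : 0 < ε) (hε1 : ε < 1) : ∃ η : ℝ, 0 < η ∧ η ≤ ε ∧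
    (1 + η) ^ 2 ≤ 1 + ε ∧ (1 - ε) * ((1 + η) ^ 2) ^ d ≤ 1 - η := by
  have h1 : Tendsto (fun η : ℝ => (1 + η) ^ 2) (𝓝[>] 0) (𝓝 ((1 + 0) ^ 2)) :=
    (Continuous.tendsto (by fun_prop) 0).mono_left nhdsWithin_le_nhds
  have h2 : Tendsto (fun η : ℝ => (1 - ε) * ((1 + η) ^ 2) ^ d - (1 - η)) (𝓝[>] 0)
      (𝓝 ((1 - ε) * ((1 + 0) ^ 2) ^ d - (1 - 0))) :=
    (Continuous.tendsto (by fun_prop) 0).mono_left nhdsWithin_le_nhds
  have e1 := h1.eventually (gt_mem_nhds (show ((1:ℝ) + 0) ^ 2 < 1 + ε by linarith))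
  have e2 := h2.eventually (gt_mem_nhds (show (1 - ε) * (((1:ℝ) + 0) ^ 2) ^ d - (1 - 0) < 0 by
    simp; linarith))
  have e3 : ∀ᶠ η : ℝ in 𝓝[>] 0, 0 < η := eventually_mem_nhdsWithin
  have e4 : ∀ᶠ η : ℝ in 𝓝[>] 0, η < ε :=
    (tendsto_nhdsWithin_of_tendsto_nhds tendsto_id).eventually (gt_mem_nhds hε)
  obtain ⟨η, h1, h2, h3, h4⟩ := (e1.and (e2.and (e3.and e4))).exists
  exact ⟨η, h3, h4.le, h1.le, by linarith⟩

/-- coarse decomposition with more information -/
theorem coarse1 {d : ℕ} (hd : 1 ≤ d) (ε : ℝ) (hε : 0 < ε) (hε1 : ε < 1) :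
    ∃ (J : ℕ) (κ : ℝ) (y : Fin J → R d) (l : Fin J → ℝ), 0 < κ ∧ (∀ j, 0 < l j) ∧
      (∀ j, ∀ x ∈ cube (y j) κ, l j ≤ lam x ∧ lam x ≤ (1 + ε) * l j) ∧
      (∀ i j, i ≠ j → Disjoint (cubo (y i) κ) (cubo (y j) κ)) ∧
      (1 - ε) * omega d ≤ ∑ j, (l j * κ) ^ d ∧ ∑ j, (l j * κ) ^ d ≤ omega d ∧
      1 - ε ≤ (sig d).real (⋃ j, Th '' (cubo (y j) κ)) := by
  have hω := omega_pos hd
  have := isProbabilityMeasure_sig d
  obtain ⟨η, hη0, hηε, hη1, hη2⟩ := exists_small d hε hε1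
  obtain ⟨κ, l, Nc, c, L, hκ, hl, hlL, hL, hint, hlow, hup⟩ := coarse0 hd hη0
  have hLpos : ∀ j, 0 < L j := fun j => hl.trans_le (hlL j)
  let e := Fintype.equivFin (Fin d → Fin Nc)
  refine ⟨Fintype.card (Fin d → Fin Nc), κ, fun j => corner c κ (e.symm j),
    fun j => L (e.symm j), hκ, fun j => hLpos _, ?_, ?_, ?_, ?_, ?_⟩
  · intro j x hx
    obtain ⟨h1, h2⟩ := hL _ x hx
    refine ⟨h1, h2.trans ?_⟩
    exact mul_le_mul_of_nonneg_right hη1 (hLpos _).le
  · intro i j hij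
    exact cubo_corner_disjoint hκ (fun h => hij (e.symm.injective h))
  · rw [Equiv.sum_comp e.symm (fun j => (L j * κ) ^ d)]
    have h1 : ∑ j, ((1 + η) ^ 2 * L j * κ) ^ d = ((1 + η) ^ 2) ^ d * ∑ j, (L j * κ) ^ d := by
      rw [Finset.mul_sum]
      refine Finset.sum_congr rfl fun j _ => ?_
      rw [← mul_pow]; ring
    rw [h1] at hlow
    have h2 : 0 < ((1 + η) ^ 2) ^ d := by positivity
    have h3 : ((1 + η) ^ 2) ^ d * ((1 - ε) * omega d) ≤ ((1 + η) ^ 2) ^ d * ∑ j, (L j * κ) ^ d := by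
      refine le_trans ?_ hlow
      have := mul_le_mul_of_nonneg_right hη2 hω.le
      linarith
    exact le_of_mul_le_mul_left h3 h2
  · rw [Equiv.sum_comp e.symm (fun j => (L j * κ) ^ d)]
    exact hup
  · have h1 : (⋃ j, Th '' cubo (corner c κ (e.symm j)) κ) =
        Th '' (⋃ j : Fin d → Fin Nc, cubo (corner c κ j) κ) := by
      rw [image_iUnion]
      exact e.symm.surjective.iUnion_comp (fun j => Th '' cubo (corner c κ j) κ)
    rw [h1]
    set A := (⋃ j : Fin d → Fin Nc, cubo (corner c κ j) κ) with hA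
    have hAm : MeasurableSet A := MeasurableSet.iUnion fun j => measurableSet_cubo _ _
    have h2 := sig_Th hd A hAm
    have h3 : ∫⁻ y in A, ENNReal.ofReal (lam y ^ d) = ENNReal.ofReal (∫ y in A, lam y ^ d) := by
      rw [ofReal_integral_eq_lintegral_ofReal (integrable_lam_pow hd).integrableOn]
      exact ae_of_all _ fun y => pow_nonneg (lam_pos y).le d
    rw [h3, ← ENNReal.ofReal_mul (by positivity)] at h2
    have h4 : (1 - η) ≤ 1 / omega d * ∫ y in A, lam y ^ d := by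
      rw [div_mul_eq_mul_div, one_mul, le_div_iff₀ hω]
      exact hint
    have h5 : (sig d).real (Th '' A) = 1 / omega d * ∫ y in A, lam y ^ d := by
      rw [Measure.real, h2, ENNReal.toReal_ofReal]
      refine mul_nonneg (by positivity) ?_
      exact setIntegral_nonneg hAm fun y _ => pow_nonneg (lam_pos y).le d
    rw [h5]
    linarith

lemma dist_bounds {l ε : ℝ} (hl : 0 < l) (hε : 0 ≤ ε) {x z : R d} (h1 : l ≤ lam x) (h2 : lam x ≤ (1 + ε) * l)
    (h3 : l ≤ lam z) (h4 : lam z ≤ (1 + ε) * l) :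
    l * dist x z ≤ dist (Th x) (Th z) ∧ dist (Th x) (Th z) ≤ (1 + ε) * l * dist x z := by
  rw [dist_Th x z]
  have s1 : √(lam x * lam z) ≤ (1 + ε) * l := by
    rw [Real.sqrt_le_left (by positivity), sq]
    exact mul_le_mul h2 h4 (lam_pos z).le (by positivity)
  have s2 : l ≤ √(lam x * lam z) := by
    apply Real.le_sqrt_of_sq_le
    rw [sq]
    exact mul_le_mul h1 h3 hl.le (lam_pos x).le
  exact ⟨mul_le_mul_of_nonneg_right s2 dist_nonneg, mul_le_mul_of_nonneg_right s1 dist_nonneg⟩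

end CoarseAux

open CoarseAux

theorem coarse {d : ℕ} (hd : 1 ≤ d) (ε : ℝ) (hε : 0 < ε) (hε1 : ε < 1) :
    ∃ (J : ℕ) (κ : ℝ) (y : Fin J → R d) (l : Fin J → ℝ), 0 < κ ∧ (∀ j, 0 < l j) ∧
      (∀ j, ∀ x ∈ cube (y j) κ, ∀ z ∈ cube (y j) κ, l j * dist x z ≤ dist (Th x) (Th z) ∧
        dist (Th x) (Th z) ≤ (1 + ε) * l j * dist x z) ∧
      (∀ i j, i ≠ j → Disjoint (cubo (y i) κ) (cubo (y j) κ)) ∧
      (1 - ε) * omega d ≤ ∑ j, (l j * κ) ^ d ∧ ∑ j, (l j * κ) ^ d ≤ omega d ∧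
      1 - ε ≤ (sig d).real (⋃ j, Th '' (cubo (y j) κ)) := by
  obtain ⟨J, κ, y, l, h1, h2, h3, h4, h5, h6, h7⟩ := coarse1 hd ε hε hε1
  refine ⟨J, κ, y, l, h1, h2, ?_, h4, h5, h6, h7⟩
  intro j x hx z hz
  exact dist_bounds (h2 j) hε.le (h3 j x hx).1 (h3 j x hx).2 (h3 j z hz).1 (h3 j z hz).2

end Helper23.Riesz
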