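import Pool.Agent.Helper23.Riesz.TransferDef

/-!
# Riesz energy on spheres: module MIX (mixtures of cut-off functions)
-/

set_option autoImplicit false
open MeasureTheory Set Filter Topology
open scoped ENNReal NNReal

namespace Helper23.Riesz

variable {s : ℝ} {d : ℕ}

namespace MixAux

lemma integrable_K_prod (hd : 1 ≤ d) (hs : 0 < s) (hsd : s < d) (B : Set (S d)) :
    Integrable (fun p : S d × S d => K s p.1 p.2) (((sig d).restrict B).prod ((sig d).restrict B)) := by
  have hf := kfacts hd hs hsd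
  have := hf.prob
  rw [integrable_prod_iff (measurable_K s).aestronglyMeasurable]
  constructor
  · exact ae_of_all _ fun x => (hf.int x).mono_measure Measure.restrict_le_self
  · refine Integrable.of_bound (C := V s d) ?_ ?_
    · exact (measurable_K s).norm.stronglyMeasurable.integral_prod_right.aestronglyMeasurable
    · refine ae_of_all _ fun x => ?_
      rw [Real.norm_of_nonneg (integral_nonneg fun y => norm_nonneg _)]
      calc ∫ y, ‖K s x y‖ ∂(sig d).restrict B ≤ ∫ y, ‖K s x y‖ ∂(sig d) :=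
            integral_mono_measure Measure.restrict_le_self (ae_of_all _ fun y => norm_nonneg _)
              (hf.int x).norm
        _ = ∫ y, K s x y ∂(sig d) := integral_congr_ae (ae_of_all _ fun y =>
              Real.norm_of_nonneg (K_nonneg s x y))
        _ = V s d := hf.pot x

/-- averaging the transfer inequality over cut-off functions -/
theorem transfer_avg (hd : 1 ≤ d) (hs : 0 < s) (hsd : s < d) {C₀ : ℝ} {Ω : Type*}
    [MeasurableSpace Ω] (ν : Measure Ω) [IsProbabilityMeasure ν] (H : Ω → ℝ → ℝ)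
    (hm : Measurable (fun p : Ω × ℝ => H p.1 p.2))
    (hb : ∀ᵐ ω ∂ν, ∀ r, 0 ≤ r → r ≤ 2 → |H ω r| ≤ 1)
    (h : ∀ᵐ ω ∂ν, Transfer s d C₀ (H ω)) : Transfer s d C₀ (fun r => ∫ ω, H ω r ∂ν) := by
  intro X N' hN' t ht htd B hB ε hε n φ hφm hφ hpos
  have hf := kfacts hd hs hsd
  have := hf.prob
  set μ2 := ((sig d).restrict B).prod ((sig d).restrict B) with hμ2
  have hK2 := integrable_K_prod hd hs hsd B
  -- integrability in `ω`
  have hHi : ∀ x y : S d, Integrable (fun ω => H ω (dist x y)) ν := by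
    intro x y
    refine Integrable.of_bound (C := 1) ?_ ?_
    · exact (hm.comp (measurable_id.prodMk measurable_const)).aestronglyMeasurable
    · filter_upwards [hb] with ω hω
      exact hω _ dist_nonneg (dist_le_two x y)
  -- joint integrability
  have hGm : Measurable (fun p : Ω × (S d × S d) => K s p.2.1 p.2.2 * H p.1 (dist p.2.1 p.2.2)) := by
    refine Measurable.mul ((measurable_K s).comp measurable_snd) ?_
    exact hm.comp (measurable_fst.prodMk (measurable_dist.comp measurable_snd))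
  have hG : Integrable (fun p : Ω × (S d × S d) => K s p.2.1 p.2.2 * H p.1 (dist p.2.1 p.2.2))
      (ν.prod μ2) := by
    have h1 : Integrable (fun p : Ω × (S d × S d) => K s p.2.1 p.2.2) (ν.prod μ2) :=
      hK2.comp_snd ν
    refine h1.mono hGm.aestronglyMeasurable ?_
    have h2 : ∀ᵐ p ∂(ν.prod μ2), ∀ r, 0 ≤ r → r ≤ 2 → |H p.1 r| ≤ 1 :=
      Measure.quasiMeasurePreserving_fst.ae hb
    filter_upwards [h2] with p hp
    rw [norm_mul]
    have := hp _ dist_nonneg (dist_le_two p.2.1 p.2.2)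
    exact mul_le_of_le_one_right (norm_nonneg _) this
  have hGω : ∀ᵐ ω ∂ν, Integrable (fun z : S d × S d => K s z.1 z.2 * H ω (dist z.1 z.2)) μ2 :=
    hG.prod_right_ae
  have hGint : Integrable (fun ω => ∫ z, K s z.1 z.2 * H ω (dist z.1 z.2) ∂μ2) ν :=
    hG.integral_prod_left
  have hswap : ∫ ω, ∫ z, K s z.1 z.2 * H ω (dist z.1 z.2) ∂μ2 ∂ν =
      ∫ z, ∫ ω, K s z.1 z.2 * H ω (dist z.1 z.2) ∂ν ∂μ2 := integral_integral_swap hG
  have hbar : ∫ x in B, ∫ y in B, K s x y * (∫ ω, H ω (dist x y) ∂ν) ∂(sig d) ∂(sig d) =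
      ∫ ω, ∫ z, K s z.1 z.2 * H ω (dist z.1 z.2) ∂μ2 ∂ν := by
    rw [hswap]
    have h1 : ∀ z : S d × S d, ∫ ω, K s z.1 z.2 * H ω (dist z.1 z.2) ∂ν =
        K s z.1 z.2 * ∫ ω, H ω (dist z.1 z.2) ∂ν := fun z => integral_const_mul _ _
    simp_rw [h1]
    have h2 : Integrable (fun z : S d × S d => K s z.1 z.2 * ∫ ω, H ω (dist z.1 z.2) ∂ν) μ2 := by
      have := hG.integral_prod_right
      refine this.congr (ae_of_all _ fun z => ?_)
      exact h1 z
    rw [integral_prod _ h2]
  have hω : ∀ᵐ ω ∂ν, Emin s d N' - (N' : ℝ) ^ 2 * V s d ≤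
      n * t ^ (-s) * ((sig d).real B * (∑ x ∈ X, ∑ y ∈ X, K s x y * H ω (dist x y)) -
        (1 + ε) ^ (-s) * (X.card : ℝ) ^ 2 * ∫ z, K s z.1 z.2 * H ω (dist z.1 z.2) ∂μ2) +
      C₀ * ((N' : ℝ) ^ (2 * s / d) + N') := by
    filter_upwards [h, hGω] with ω h1 h2
    have h3 := h1 X N' hN' t ht htd B hB ε hε n φ hφm hφ hpos
    rw [integral_prod _ h2]
    exact h3
  have hsum : ∀ x y : S d, ∫ ω, K s x y * H ω (dist x y) ∂ν = K s x y * ∫ ω, H ω (dist x y) ∂ν :=
    fun x y => integral_const_mul _ _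
  have hS : Integrable (fun ω => ∑ x ∈ X, ∑ y ∈ X, K s x y * H ω (dist x y)) ν :=
    integrable_finsetSum _ fun x _ => integrable_finsetSum _ fun y _ => (hHi x y).const_mul _
  have hSi : ∫ ω, ∑ x ∈ X, ∑ y ∈ X, K s x y * H ω (dist x y) ∂ν =
      ∑ x ∈ X, ∑ y ∈ X, K s x y * ∫ ω, H ω (dist x y) ∂ν := by
    rw [integral_finsetSum _ fun x _ => integrable_finsetSum _ fun y _ => (hHi x y).const_mul _]
    refine Finset.sum_congr rfl fun x _ => ?_
    rw [integral_finsetSum _ fun y _ => (hHi x y).const_mul _]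
    exact Finset.sum_congr rfl fun y _ => hsum x y
  have hint1 : Integrable (fun ω => n * t ^ (-s) * ((sig d).real B *
      (∑ x ∈ X, ∑ y ∈ X, K s x y * H ω (dist x y)) - (1 + ε) ^ (-s) * (X.card : ℝ) ^ 2 *
        ∫ z, K s z.1 z.2 * H ω (dist z.1 z.2) ∂μ2)) ν :=
    ((hS.const_mul _).sub (hGint.const_mul _)).const_mul _
  have h1 := integral_mono_ae (integrable_const _) (hint1.add (integrable_const
    (C₀ * ((N' : ℝ) ^ (2 * s / d) + N')))) hω
  rw [integral_const, probReal_univ, one_smul] at h1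
  refine h1.trans (le_of_eq ?_)
  rw [integral_add' hint1 (integrable_const _), integral_const, probReal_univ, one_smul,
    integral_const_mul, integral_sub (hS.const_mul _) (hGint.const_mul _), integral_const_mul,
    integral_const_mul, hSi, hbar]

end MixAux

open MixAux

/-- Poisson mixture -/
theorem transfer_exp (hd : 1 ≤ d) (hs : 0 < s) (hsd : s < d) {c C₀ : ℝ} (hc : 0 < c) (hc2 : c ≤ 1/2)
    (h : ∀ m : ℕ, Transfer s d C₀ (fun r => (1 - c * r) ^ m)) (b : ℝ) (hb : 0 ≤ b) :
    Transfer s d C₀ (fun r => Real.exp (-b * r)) := by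
  set lam' : ℝ≥0 := ⟨b / c, by positivity⟩ with hlam
  have h1 := transfer_avg hd hs hsd (ProbabilityTheory.poissonMeasure lam')
    (fun m r => (1 - c * r) ^ m) ?_ ?_ (ae_of_all _ h)
  · have h2 : (fun r => ∫ m : ℕ, (1 - c * r) ^ m ∂(ProbabilityTheory.poissonMeasure lam')) =
        fun r => Real.exp (-b * r) := by
      funext r
      rw [ProbabilityTheory.integral_poissonMeasure]
      have h3 : ∀ n : ℕ, (Real.exp (-(lam' : ℝ)) * (lam' : ℝ) ^ n / (n.factorial : ℝ)) • (1 - c * r) ^ n =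
          Real.exp (-(lam' : ℝ)) * (((lam' : ℝ) * (1 - c * r)) ^ n / (n.factorial : ℝ)) := by
        intro n
        rw [smul_eq_mul, mul_pow]
        ring
      simp_rw [h3]
      rw [tsum_mul_left]
      have h4 : ∑' n : ℕ, ((lam' : ℝ) * (1 - c * r)) ^ n / (n.factorial : ℝ) =
          Real.exp ((lam' : ℝ) * (1 - c * r)) := by
        rw [Real.exp_eq_exp_ℝ, NormedSpace.exp_eq_tsum_div]
      rw [h4, ← Real.exp_add]
      congr 1
      have h5 : (lam' : ℝ) = b / c := rfl
      rw [h5]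
      field_simp
      ring
    rw [h2] at h1
    exact h1
  · exact measurable_from_prod_countable_right fun m => by
      change Measurable fun r : ℝ => (1 - c * r) ^ m
      fun_prop
  · refine ae_of_all _ fun m r hr0 hr2 => ?_
    rw [abs_pow]
    have : |1 - c * r| ≤ 1 := by
      rw [abs_le]
      constructor
      · nlinarith
      · nlinarith
    exact pow_le_one₀ (abs_nonneg _) this

theorem transfer_mix (hd : 1 ≤ d) (hs : 0 < s) (hsd : s < d) {C₀ : ℝ}
    (h : ∀ b : ℝ, 0 ≤ b → Transfer s d C₀ (fun r => Real.exp (-b * r))) (ρ : Measure ℝ)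
    [IsProbabilityMeasure ρ] (hρ : ρ (Iio 0) = 0) :
    Transfer s d C₀ (fun r => ∫ b, Real.exp (-b * r) ∂ρ) := by
  have hae : ∀ᵐ b ∂ρ, 0 ≤ b := by
    rw [ae_iff]
    have : {a : ℝ | ¬ 0 ≤ a} = Iio 0 := by ext a; simp
    rw [this]; exact hρ
  refine transfer_avg hd hs hsd ρ (fun b r => Real.exp (-b * r)) ?_ ?_ ?_
  · fun_prop
  · filter_upwards [hae] with b hb r hr0 hr2
    rw [Real.abs_exp]
    exact Real.exp_le_one_iff.2 (by nlinarith)
  · filter_upwards [hae] with b hb
    exact h b hb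

end Helper23.Riesz
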